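import Mathlib
import Pool.Agent.Work.MP_c51d14_co.Interface

/-!
# Blocks FILT, TWO, TRANSP, PISUCC, CXCONV, CXPROD, CXPI, CXSIMP (helper22)
-/

namespace Pool.Agent.TP

open Finset

namespace h22


variable {X Y : Type}

theorem bd_sub (A : Inc X) (s : Finset X) (b c : X → ZMod 2) (y : X) :
    A.bd s (fun x => b x - c x) y = A.bd s b y - A.bd s c y := by
  unfold Inc.bd
  rw [← Finset.sum_sub_distrib]
  exact Finset.sum_congr rfl fun x _ => by ring

theorem bd_congr (A : Inc X) (s : Finset X) (b c : X → ZMod 2) (y : X)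
    (h : ∀ x ∈ s, b x = c x) : A.bd s b y = A.bd s c y := by
  unfold Inc.bd
  exact Finset.sum_congr rfl fun x hx => by rw [h x hx]

/-- the boundary of a boundary vanishes -/
theorem bd_bd (A : Inc X) (s : Finset X) (h : A.IsCx s) (b : X → ZMod 2) (z : X) (hz : z ∈ s) :
    A.bd s (A.bd s b) z = 0 := by
  unfold Inc.bd
  simp only [Finset.sum_mul]
  rw [Finset.sum_comm]
  apply Finset.sum_eq_zero
  intro x hx
  have := h x hx z hz
  simp only [mul_assoc]
  rw [← Finset.mul_sum, this, mul_zero]

/-- boundary over `s` of the extension by zero -/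
theorem bd_ite (A : Inc X) (s : Finset X) (p : X → Prop) [DecidablePred p] (b : X → ZMod 2)
    (y : X) : A.bd s (fun x => if p x then b x else 0) y = A.bd (s.filter p) b y := by
  unfold Inc.bd
  rw [Finset.sum_filter]
  exact Finset.sum_congr rfl fun x _ => by by_cases h : p x <;> simp [h]

theorem bd_filter_add (A : Inc X) (s : Finset X) (p : X → Prop) [DecidablePred p]
    (b : X → ZMod 2) (y : X) :
    A.bd (s.filter p) b y + A.bd (s.filter fun x => ¬ p x) b y = A.bd s b y := by
  unfold Inc.bd
  exact Finset.sum_filter_add_sum_filter_not s p _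

theorem gr_of_bd_ne (A : Inc X) (s : Finset X) (b : X → ZMod 2) (n : ℕ)
    (hb : ∀ x ∈ s, b x ≠ 0 → A.gr x = n + 1) (y : X) (hy : A.bd s b y ≠ 0) : A.gr y = n := by
  unfold Inc.bd at hy
  obtain ⟨x, hx, h⟩ := Finset.exists_ne_zero_of_sum_ne_zero hy
  have h1 := hb x hx (left_ne_zero_of_mul h)
  have h2 := A.gr_d x y (right_ne_zero_of_mul h)
  omega

theorem exact_empty (A : Inc X) (n : ℕ) : A.Exact ∅ n := by
  intro c _ _
  exact ⟨0, by simp, by simp⟩



open scoped Classical in
theorem stmt_Filt : Stmt_Filt := by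
  intro X α _ A s f n
  induction hN : s.card using Nat.strong_induction_on generalizing s with
  | _ N ih =>
  intro hcx hmono hex
  rcases s.eq_empty_or_nonempty with rfl | hne
  · exact exact_empty A n
  obtain ⟨x0, hx0⟩ := s.exists_maximalFor f hne
  have hx0s : x0 ∈ s := hx0.prop
  -- closure
  have hcl : ∀ x ∈ s, ∀ y ∈ s, f x ≠ f x0 → f y = f x0 → A.d x y = 0 := by
    intro x hx y hy h1 h2
    by_contra h3
    have h4 := hmono x hx y hy h3
    rw [h2] at h4
    exact h1 (le_antisymm (hx0.le_of_le hx h4) h4)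
  intro c hc hcy
  -- step 1
  have h1 : ∀ y ∈ s.filter (fun x => f x = f x0), A.bd (s.filter fun x => ¬ f x = f x0) c y = 0 := by
    intro y hy
    rw [Finset.mem_filter] at hy
    unfold Inc.bd
    apply Finset.sum_eq_zero
    intro x hx
    rw [Finset.mem_filter] at hx
    rw [hcl x hx.1 y hy.1 hx.2 hy.2, mul_zero]
  obtain ⟨b1, hb1, hb1y⟩ := hex (f x0) c
    (fun x hx => hc x (Finset.mem_filter.1 hx).1) (by
      intro y hy
      have h2 := bd_filter_add A s (fun x => f x = f x0) c y
      rw [h1 y hy, add_zero, hcy y (Finset.mem_filter.1 hy).1] at h2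
      exact h2)
  set b1' : X → ZMod 2 := fun x => if f x = f x0 then b1 x else 0 with hb1'
  have hb1'bd : ∀ y, A.bd s b1' y = A.bd (s.filter fun x => f x = f x0) b1 y := fun y =>
    bd_ite A s (fun x => f x = f x0) b1 y
  have hb1'gr : ∀ x ∈ s, b1' x ≠ 0 → A.gr x = n + 1 := by
    intro x hx h
    by_cases h2 : f x = f x0
    · simp only [hb1', if_pos h2] at h
      exact hb1 x (Finset.mem_filter.2 ⟨hx, h2⟩) h
    · simp only [hb1', if_neg h2] at h
      exact absurd rfl h
  set c' : X → ZMod 2 := fun y => c y - A.bd s b1' y with hc'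
  have hc'0 : ∀ y ∈ s, f y = f x0 → c' y = 0 := by
    intro y hy h
    simp only [hc']
    rw [hb1'bd y, hb1y y (Finset.mem_filter.2 ⟨hy, h⟩), sub_self]
  have hbdc' : ∀ y ∈ s, A.bd s c' y = 0 := by
    intro y hy
    rw [hc', bd_sub A s c (A.bd s b1') y, hcy y hy, bd_bd A s hcx b1' y hy, sub_zero]
  set s' := s.filter fun x => ¬ f x = f x0 with hs'
  have hs'sub : s' ⊆ s := Finset.filter_subset _ _
  have hcard : s'.card < N := by
    rw [← hN]
    apply Finset.card_lt_card
    rw [Finset.ssubset_iff_of_subset hs'sub]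
    exact ⟨x0, hx0s, by simp [hs']⟩
  have hcx' : A.IsCx s' := by
    intro x hx z hz
    rw [← hcx x (hs'sub hx) z (hs'sub hz)]
    apply Finset.sum_subset hs'sub
    intro y hy hy'
    rw [Finset.mem_filter] at hx
    have : f y = f x0 := by
      by_contra h
      exact hy' (Finset.mem_filter.2 ⟨hy, h⟩)
    rw [hcl x hx.1 y hy hx.2 this, zero_mul]
  have hex' : ∀ a, A.Exact (s'.filter fun x => f x = a) n := by
    intro a
    by_cases ha : a = f x0
    · have : s'.filter (fun x => f x = a) = ∅ := by
        ext x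
        simp only [hs', Finset.mem_filter, ha, Finset.notMem_empty, iff_false, not_and]
        intro h1 h2
        exact h1.2 h2
      rw [this]
      exact exact_empty A n
    · have : s'.filter (fun x => f x = a) = s.filter (fun x => f x = a) := by
        ext x
        simp only [hs', Finset.mem_filter]
        constructor
        · exact fun h => ⟨h.1.1, h.2⟩
        · exact fun h => ⟨⟨h.1, fun h2 => ha (h.2.symm.trans h2)⟩, h.2⟩
      rw [this]
      exact hex a
  obtain ⟨b2, hb2, hb2y⟩ := ih s'.card hcard s' rfl hcx'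
    (fun x hx y hy => hmono x (hs'sub hx) y (hs'sub hy)) hex' c'
    (by
      intro x hx h
      by_cases h2 : c x = 0
      · simp only [hc', h2, zero_sub, ne_eq, neg_eq_zero] at h
        exact gr_of_bd_ne A s b1' n hb1'gr x h
      · exact hc x (hs'sub hx) h2)
    (by
      intro y hy
      rw [← hbdc' y (hs'sub hy), ← bd_filter_add A s (fun x => f x = f x0) c' y]
      have : A.bd (s.filter fun x => f x = f x0) c' y = 0 := by
        unfold Inc.bd
        apply Finset.sum_eq_zero
        intro x hx
        rw [Finset.mem_filter] at hx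
        rw [hc'0 x hx.1 hx.2, zero_mul]
      rw [this, zero_add])
  refine ⟨fun x => if f x = f x0 then b1 x else b2 x, ?_, ?_⟩
  · intro x hx h
    by_cases h2 : f x = f x0
    · simp only [if_pos h2] at h
      exact hb1 x (Finset.mem_filter.2 ⟨hx, h2⟩) h
    · simp only [if_neg h2] at h
      exact hb2 x (Finset.mem_filter.2 ⟨hx, h2⟩) h
  · intro y hy
    rw [← bd_filter_add A s (fun x => f x = f x0)]
    rw [bd_congr A (s.filter fun x => f x = f x0) _ b1 y (by
      intro x hx
      rw [if_pos (Finset.mem_filter.1 hx).2])]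
    rw [bd_congr A (s.filter fun x => ¬ f x = f x0) _ b2 y (by
      intro x hx
      rw [if_neg (Finset.mem_filter.1 hx).2])]
    by_cases h2 : f y = f x0
    · have h3 : A.bd (s.filter fun x => ¬ f x = f x0) b2 y = 0 := by
        unfold Inc.bd
        apply Finset.sum_eq_zero
        intro x hx
        rw [Finset.mem_filter] at hx
        rw [hcl x hx.1 y hy hx.2 h2, mul_zero]
      rw [h3, add_zero]
      exact hb1y y (Finset.mem_filter.2 ⟨hy, h2⟩)
    · rw [hb2y y (Finset.mem_filter.2 ⟨hy, h2⟩), ← hb1'bd y]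
      simp only [hc']
      ring

open scoped Classical in
theorem stmt_Two : Stmt_Two := by
  intro X A s p n hcx hcl hexs hexq c hc hcy
  set c0 : X → ZMod 2 := fun x => if p x then c x else 0 with hc0
  have hc0bd : ∀ y, A.bd s c0 y = A.bd (s.filter p) c y := fun y => bd_ite A s p c y
  obtain ⟨b, hb, hby⟩ := hexs c0 (by
    intro x hx h
    by_cases h2 : p x
    · simp only [hc0, if_pos h2] at h
      exact hc x (Finset.mem_filter.2 ⟨hx, h2⟩) h
    · simp only [hc0, if_neg h2] at h
      exact absurd rfl h) (by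
    intro y hy
    rw [hc0bd]
    by_cases h2 : p y
    · exact hcy y (Finset.mem_filter.2 ⟨hy, h2⟩)
    · unfold Inc.bd
      apply Finset.sum_eq_zero
      intro x hx
      rw [Finset.mem_filter] at hx
      have : A.d x y = 0 := by
        by_contra h3
        exact h2 (hcl x hx.1 y hy hx.2 h3)
      rw [this, mul_zero])
  obtain ⟨e, he, hey⟩ := hexq b (fun x hx => hb x (Finset.mem_filter.1 hx).1) (by
    intro y hy
    rw [Finset.mem_filter] at hy
    have h1 := bd_filter_add A s p b y
    have h2 : A.bd (s.filter p) b y = 0 := by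
      unfold Inc.bd
      apply Finset.sum_eq_zero
      intro x hx
      rw [Finset.mem_filter] at hx
      have : A.d x y = 0 := by
        by_contra h3
        exact hy.2 (hcl x hx.1 y hy.1 hx.2 h3)
      rw [this, mul_zero]
    rw [h2, zero_add, hby y hy.1] at h1
    rw [h1]
    simp only [hc0, if_neg hy.2])
  set e0 : X → ZMod 2 := fun x => if ¬ p x then e x else 0 with he0
  have he0bd : ∀ y, A.bd s e0 y = A.bd (s.filter fun x => ¬ p x) e y := fun y =>
    bd_ite A s (fun x => ¬ p x) e y
  set b' : X → ZMod 2 := fun x => b x - A.bd s e0 x with hb'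
  have hb'0 : ∀ x ∈ s, ¬ p x → b' x = 0 := by
    intro x hx h
    simp only [hb']
    rw [he0bd x, hey x (Finset.mem_filter.2 ⟨hx, h⟩), sub_self]
  refine ⟨b', ?_, ?_⟩
  · intro x hx h
    rw [Finset.mem_filter] at hx
    by_cases h2 : b x = 0
    · simp only [hb', h2, zero_sub, ne_eq, neg_eq_zero] at h
      refine gr_of_bd_ne A s e0 (n + 1) ?_ x h
      intro w hw h3
      by_cases h4 : ¬ p w
      · simp only [he0, if_pos h4] at h3
        exact he w (Finset.mem_filter.2 ⟨hw, h4⟩) h3
      · simp only [he0, if_neg h4] at h3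
        exact absurd rfl h3
    · exact hb x hx.1 h2
  · intro y hy
    rw [Finset.mem_filter] at hy
    have h1 : A.bd s b' y = c0 y := by
      rw [hb', bd_sub A s b (A.bd s e0) y, bd_bd A s hcx e0 y hy.1, sub_zero, hby y hy.1]
    rw [← bd_filter_add A s p b' y] at h1
    have h2 : A.bd (s.filter fun x => ¬ p x) b' y = 0 := by
      unfold Inc.bd
      apply Finset.sum_eq_zero
      intro x hx
      rw [Finset.mem_filter] at hx
      rw [hb'0 x hx.1 hx.2, zero_mul]
    rw [h2, add_zero] at h1
    rw [h1]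
    simp only [hc0, if_pos hy.2]

theorem stmt_Transp : Stmt_Transp := by
  intro X Y A B s t φ k n hφ hgr hd hex c hc hcy
  classical
  by_cases hn : k ≤ n
  · obtain ⟨m, rfl⟩ : ∃ m, n = m + k := ⟨n - k, by omega⟩
    rcases isEmpty_or_nonempty X with hX | hX
    · exact ⟨0, fun x => isEmptyElim x, fun x => isEmptyElim x⟩
    set ψ := Function.invFunOn φ (s : Set X) with hψ
    have hψl : ∀ x ∈ s, ψ (φ x) = x := fun x hx => hφ.injOn.leftInvOn_invFunOn (by exact_mod_cast hx)
    have hsum : ∀ F : Y → ZMod 2, ∑ y ∈ t, F y = ∑ x ∈ s, F (φ x) := by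
      intro F
      symm
      apply Finset.sum_nbij φ
      · intro x hx
        exact_mod_cast hφ.mapsTo (by exact_mod_cast hx)
      · exact hφ.injOn
      · exact hφ.surjOn
      · intro x _
        rfl
    have hmem : ∀ y ∈ t, ∃ x ∈ s, φ x = y := by
      intro y hy
      obtain ⟨x, hx, rfl⟩ := hφ.surjOn (by exact_mod_cast hy : y ∈ (t : Set Y))
      exact ⟨x, by exact_mod_cast hx, rfl⟩
    obtain ⟨b, hb, hby⟩ := hex m rfl (fun y => c (ψ y)) (by
      intro y hy h
      obtain ⟨x, hx, rfl⟩ := hmem y hy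
      simp only [hψl x hx] at h
      have h1 := hc x hx h
      have h2 := hgr x hx
      omega) (by
      intro y hy
      obtain ⟨z, hz, rfl⟩ := hmem y hy
      rw [← hcy z hz]
      unfold Inc.bd
      rw [hsum]
      exact Finset.sum_congr rfl fun x hx => by
        show c (ψ (φ x)) * B.d (φ x) (φ z) = c x * A.d x z
        rw [hψl x hx, hd x hx z hz])
    refine ⟨fun x => b (φ x), ?_, ?_⟩
    · intro x hx h
      have h1 := hb (φ x) (by exact_mod_cast hφ.mapsTo (by exact_mod_cast hx)) h
      have h2 := hgr x hx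
      omega
    · intro y hy
      have h1 := hby (φ y) (by exact_mod_cast hφ.mapsTo (by exact_mod_cast hy))
      simp only [hψl y hy] at h1
      rw [← h1]
      unfold Inc.bd
      rw [hsum]
      exact Finset.sum_congr rfl fun x hx => by rw [hd x hx y hy]
  · refine ⟨0, by simp, ?_⟩
    intro y hy
    have h1 : c y = 0 := by
      by_contra h
      have h1 := hc y hy h
      have h2 := hgr y hy
      omega
    simp [Inc.bd, h1]


open scoped Classical in
theorem pi_d {X : Type} (A : Inc X) (r : ℕ) (x y : Fin r → X) :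
    (A.pi r).d x y = ∑ i, if (∀ j, j ≠ i → x j = y j) then A.d (x i) (y i) else 0 := by
  unfold Inc.pi
  dsimp only

open scoped Classical in
theorem prod_d {X Y : Type} (A : Inc X) (B : Inc Y) (x y : X × Y) :
    (A.prod B).d x y =
      (if x.2 = y.2 then A.d x.1 y.1 else 0) + (if x.1 = y.1 then B.d x.2 y.2 else 0) := rfl

open scoped Classical in
theorem pi_succ_d {X : Type} (A : Inc X) (s : ℕ) (x y : Fin (s + 1) → X) :
    (A.pi (s + 1)).d x y = ((A.pi s).prod A).d ((fun i : Fin s => x i.castSucc), x (Fin.last s))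
      ((fun i : Fin s => y i.castSucc), y (Fin.last s)) := by
  rw [pi_d, prod_d, pi_d]
  dsimp only
  rw [Fin.sum_univ_castSucc]
  congr 1
  · by_cases h : x (Fin.last s) = y (Fin.last s)
    · rw [if_pos h]
      refine Finset.sum_congr rfl fun i _ => ?_
      have : (∀ j, j ≠ i.castSucc → x j = y j) ↔
          (∀ j : Fin s, j ≠ i → x j.castSucc = y j.castSucc) := by
        rw [Fin.forall_fin_succ']
        constructor
        · intro h1 j hj
          exact h1.1 j fun h2 => hj (Fin.castSucc_injective s h2)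
        · intro h1
          exact ⟨fun j hj => h1 j fun h2 => hj (by rw [h2]), fun _ => h⟩
      simp only [this]
    · rw [if_neg h]
      apply Finset.sum_eq_zero
      intro i _
      rw [if_neg]
      intro h1
      exact h (h1 (Fin.last s) (Fin.castSucc_lt_last i).ne')
  · have : (∀ j, j ≠ Fin.last s → x j = y j) ↔
        (fun i : Fin s => x i.castSucc) = (fun i : Fin s => y i.castSucc) := by
      rw [Fin.forall_fin_succ', funext_iff]
      constructor
      · intro h1 j
        exact h1.1 j (Fin.castSucc_lt_last j).ne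
      · intro h1
        exact ⟨fun j _ => h1 j, fun h => absurd rfl h⟩
    by_cases h : (fun i : Fin s => x i.castSucc) = (fun i : Fin s => y i.castSucc)
    · rw [if_pos h, if_pos (this.2 h)]
    · rw [if_neg h, if_neg fun h1 => h (this.1 h1)]

theorem pi_succ_bij {X : Type} (s : ℕ) (t : Finset (Fin s → X)) (u : Finset X)
    (w : Finset (Fin (s + 1) → X))
    (hw : ∀ x : Fin (s + 1) → X, x ∈ w ↔
      (fun i : Fin s => x i.castSucc) ∈ t ∧ x (Fin.last s) ∈ u) :
    Set.BijOn (fun x : Fin (s + 1) → X => ((fun i : Fin s => x i.castSucc), x (Fin.last s)))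
      (w : Set (Fin (s + 1) → X)) ((t ×ˢ u : Finset ((Fin s → X) × X)) : Set ((Fin s → X) × X)) := by
  refine ⟨?_, ?_, ?_⟩
  · intro x hx
    rw [Finset.mem_coe, hw] at hx
    rw [Finset.mem_coe, Finset.mem_product]
    exact hx
  · intro x _ y _ h
    simp only [Prod.mk.injEq] at h
    funext i
    refine Fin.lastCases h.2 (fun j => congrFun h.1 j) i
  · intro z hz
    rw [Finset.mem_coe, Finset.mem_product] at hz
    refine ⟨Fin.snoc z.1 z.2, ?_, ?_⟩
    · rw [Finset.mem_coe, hw]
      simp only [Fin.snoc_castSucc, Fin.snoc_last]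
      exact hz
    · simp only [Fin.snoc_castSucc, Fin.snoc_last]


theorem stmt_PiSucc : Stmt_PiSucc := by
  intro X A s t u w n hw hex
  refine stmt_Transp _ _ (A.pi (s + 1)) ((A.pi s).prod A) w (t ×ˢ u)
    (fun x => ((fun i : Fin s => x i.castSucc), x (Fin.last s))) 0 n (pi_succ_bij s t u w hw)
    ?_ ?_ ?_
  · intro x _
    show ∑ i, A.gr (x i) = (∑ i : Fin s, A.gr (x i.castSucc)) + A.gr (x (Fin.last s)) + 0
    rw [Fin.sum_univ_castSucc, add_zero]
  · intro x _ y _
    exact pi_succ_d A s x y
  · intro m hm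
    rw [add_zero] at hm
    rw [hm]
    exact hex

theorem stmt_CxConv : Stmt_CxConv := by
  intro X A s t hs hts hconv x hx z hz
  rw [← hs x (hts hx) z (hts hz)]
  apply Finset.sum_subset hts
  intro y hy hy'
  by_contra h
  exact hy' (hconv x hx y hy z hz (left_ne_zero_of_mul h) (right_ne_zero_of_mul h))


/-- transport of the complex property -/
theorem cx_transp {X Y : Type} (A : Inc X) (B : Inc Y) (s : Finset X) (t : Finset Y) (φ : X → Y)
    (hφ : Set.BijOn φ (s : Set X) (t : Set Y))
    (hd : ∀ x ∈ s, ∀ y ∈ s, A.d x y = B.d (φ x) (φ y)) (ht : B.IsCx t) : A.IsCx s := by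
  intro x hx z hz
  rw [← ht (φ x) (by exact_mod_cast hφ.mapsTo (by exact_mod_cast hx)) (φ z)
    (by exact_mod_cast hφ.mapsTo (by exact_mod_cast hz))]
  apply Finset.sum_nbij φ
  · intro y hy
    exact_mod_cast hφ.mapsTo (by exact_mod_cast hy)
  · exact hφ.injOn
  · exact hφ.surjOn
  · intro y hy
    rw [hd x hx y hy, hd y hy z hz]


open scoped Classical in
theorem stmt_CxProd : Stmt_CxProd := by
  rintro X Y A B s t hs ht ⟨x1, x2⟩ hx ⟨z1, z2⟩ hz
  rw [Finset.mem_product] at hx hz
  dsimp only at hx hz
  rw [Finset.sum_product]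
  simp only [prod_d]
  have h1 : ∀ y ∈ s, ∀ y' ∈ t,
      ((if x2 = y' then A.d x1 y else 0) + (if x1 = y then B.d x2 y' else 0)) *
      ((if y' = z2 then A.d y z1 else 0) + (if y = z1 then B.d y' z2 else 0)) =
      (if x2 = y' then (if x2 = z2 then A.d x1 y * A.d y z1 else 0) else 0) +
      (if x2 = y' then (if y = z1 then A.d x1 z1 * B.d x2 z2 else 0) else 0) +
      ((if x1 = y then (if y' = z2 then B.d x2 z2 * A.d x1 z1 else 0) else 0) +
      (if x1 = y then (if x1 = z1 then B.d x2 y' * B.d y' z2 else 0) else 0)) := by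
    intro y _ y' _
    rw [add_mul, mul_add, mul_add]
    congr 1
    · congr 1
      · by_cases e1 : x2 = y'
        · subst e1; simp
        · simp [e1]
      · by_cases e1 : x2 = y'
        · subst e1
          by_cases e2 : y = z1
          · subst e2; simp
          · simp [e2]
        · simp [e1]
    · congr 1
      · by_cases e1 : x1 = y
        · subst e1
          by_cases e2 : y' = z2
          · subst e2; simp
          · simp [e2]
        · simp [e1]
      · by_cases e1 : x1 = y
        · subst e1; simp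
        · simp [e1]
  rw [Finset.sum_congr rfl fun y hy => Finset.sum_congr rfl fun y' hy' => h1 y hy y' hy']
  simp only [Finset.sum_add_distrib]
  have e1 : ∑ y ∈ s, ∑ y' ∈ t, (if x2 = y' then (if x2 = z2 then A.d x1 y * A.d y z1 else 0) else 0)
      = 0 := by
    simp only [Finset.sum_ite_eq, if_pos hx.2]
    by_cases h : x2 = z2
    · simp only [if_pos h]
      exact hs x1 hx.1 z1 hz.1
    · simp only [if_neg h, Finset.sum_const_zero]
  have e2 : ∑ y ∈ s, ∑ y' ∈ t, (if x2 = y' then (if y = z1 then A.d x1 z1 * B.d x2 z2 else 0) else 0)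
      = A.d x1 z1 * B.d x2 z2 := by
    simp only [Finset.sum_ite_eq, Finset.sum_ite_eq', if_pos hx.2, if_pos hz.1]
  have e3 : ∑ y ∈ s, ∑ y' ∈ t, (if x1 = y then (if y' = z2 then B.d x2 z2 * A.d x1 z1 else 0) else 0)
      = A.d x1 z1 * B.d x2 z2 := by
    rw [Finset.sum_comm]
    simp only [Finset.sum_ite_eq, Finset.sum_ite_eq', if_pos hx.1, if_pos hz.2]
    ring
  have e4 : ∑ y ∈ s, ∑ y' ∈ t, (if x1 = y then (if x1 = z1 then B.d x2 y' * B.d y' z2 else 0) else 0)
      = 0 := by
    rw [Finset.sum_comm]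
    simp only [Finset.sum_ite_eq, if_pos hx.1]
    by_cases h : x1 = z1
    · simp only [if_pos h]
      exact ht x2 hx.2 z2 hz.2
    · simp only [if_neg h, Finset.sum_const_zero]
  rw [e1, e2, e3, e4, zero_add, add_zero]
  exact CharTwo.add_self_eq_zero _

theorem stmt_CxPi : Stmt_CxPi := by
  intro X A r s hs
  induction r with
  | zero =>
    intro x _ z _
    apply Finset.sum_eq_zero
    intro y _
    rw [pi_d]
    simp
  | succ r ih =>
    refine cx_transp _ ((A.pi r).prod A) _ ((Fintype.piFinset fun _ : Fin r => s) ×ˢ s)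
      (fun x => ((fun i : Fin r => x i.castSucc), x (Fin.last r)))
      (pi_succ_bij r _ s _ ?_) (fun x _ y _ => pi_succ_d A r x y) (stmt_CxProd _ _ _ _ _ _ ih hs)
    intro x
    rw [Fintype.mem_piFinset, Fintype.mem_piFinset, Fin.forall_fin_succ']

open scoped Classical in
theorem stmt_CxSimp : Stmt_CxSimp := by
  intro α s hdown S hS R hR
  show ∑ T ∈ s, (if T ⊆ S ∧ T.card + 1 = S.card then (1 : ZMod 2) else 0) *
    (if R ⊆ T ∧ R.card + 1 = T.card then 1 else 0) = 0
  by_cases h : R ⊆ S ∧ R.card + 2 = S.card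
  · have h1 : ∀ T ∈ s, (if T ⊆ S ∧ T.card + 1 = S.card then (1 : ZMod 2) else 0) *
        (if R ⊆ T ∧ R.card + 1 = T.card then 1 else 0) =
        if (T ⊆ S ∧ R ⊆ T ∧ R.card + 1 = T.card) then 1 else 0 := by
      intro T _
      by_cases h2 : T ⊆ S ∧ R ⊆ T ∧ R.card + 1 = T.card
      · rw [if_pos h2, if_pos ⟨h2.1, by omega⟩, if_pos h2.2, one_mul]
      · rw [if_neg h2]
        by_cases h3 : R ⊆ T ∧ R.card + 1 = T.card
        · rw [if_neg (fun h4 => h2 ⟨h4.1, h3⟩), zero_mul]
        · rw [if_neg h3, mul_zero]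
    rw [Finset.sum_congr rfl h1, Finset.sum_boole]
    have h2 : s.filter (fun T => T ⊆ S ∧ R ⊆ T ∧ R.card + 1 = T.card) =
        (S \ R).image fun a => insert a R := by
      ext T
      rw [Finset.mem_filter, Finset.mem_image]
      constructor
      · rintro ⟨_, hTS, hRT, hc⟩
        have h3 : (T \ R).card = 1 := by
          rw [Finset.card_sdiff_of_subset hRT]; omega
        obtain ⟨a, ha⟩ := Finset.card_eq_one.1 h3
        have ha' : a ∈ T \ R := by rw [ha]; exact Finset.mem_singleton_self a
        rw [Finset.mem_sdiff] at ha'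
        refine ⟨a, Finset.mem_sdiff.2 ⟨hTS ha'.1, ha'.2⟩, ?_⟩
        rw [← Finset.sdiff_union_of_subset hRT, ha]
        rfl
      · rintro ⟨a, ha, rfl⟩
        rw [Finset.mem_sdiff] at ha
        have h4 : insert a R ⊆ S := Finset.insert_subset ha.1 h.1
        refine ⟨hdown S hS _ h4, h4, Finset.subset_insert _ _, ?_⟩
        rw [Finset.card_insert_of_notMem ha.2]
    rw [h2, Finset.card_image_of_injOn, Finset.card_sdiff_of_subset h.1]
    · have : S.card - R.card = 2 := by omega
      rw [this]
      rfl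
    · intro a ha b hb hab
      rw [Finset.mem_coe, Finset.mem_sdiff] at ha hb
      simp only at hab
      have : a ∈ insert b R := by rw [← hab]; exact Finset.mem_insert_self a R
      rcases Finset.mem_insert.1 this with h | h
      · exact h
      · exact absurd h ha.2
  · apply Finset.sum_eq_zero
    intro T _
    by_cases h1 : T ⊆ S ∧ T.card + 1 = S.card
    · have h4 : ¬ (R ⊆ T ∧ R.card + 1 = T.card) := by
        rintro ⟨h2, h3⟩
        exact h ⟨h2.trans h1.1, by omega⟩
      rw [if_neg h4, mul_zero]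
    · rw [if_neg h1, zero_mul]

end h22

end Pool.Agent.TP
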